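import Mathlib

/-!
# Zones: the covering step of the energy lemma (LB, MP_dc0c68_nt)
-/

set_option autoImplicit false

namespace H73.LB

open MeasureTheory Set Real Metric

theorem norm_exp_sub_exp_le (s t : ℝ) :
    ‖Complex.exp (s * Complex.I) - Complex.exp (t * Complex.I)‖ ≤ |s - t| := by
  have h1 : Complex.exp (s * Complex.I) - Complex.exp (t * Complex.I) =
      Complex.exp (t * Complex.I) * (Complex.exp (Complex.I * ((s - t : ℝ) : ℂ)) - 1) := by
    rw [mul_sub, ← Complex.exp_add, mul_one]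
    congr 2
    push_cast
    ring
  rw [h1, norm_mul, Complex.norm_exp_ofReal_mul_I, one_mul]
  have := Real.norm_exp_I_mul_ofReal_sub_one_le (x := s - t)
  simpa using this

/-- an arc of chord radius `r` has length at least `r` -/
theorem arc_volume {e : ℂ} (he : ‖e‖ = 1) {r : ℝ} (h1 : r ≤ 1) :
    ENNReal.ofReal r ≤
      volume ({θ : ℝ | ‖Complex.exp (θ * Complex.I) - e‖ ≤ r} ∩ Ioc 0 (2 * π)) := by
  have hpi := Real.pi_gt_three
  obtain ⟨φ, hφ0, hφ1, hφ⟩ : ∃ φ : ℝ, 0 < φ ∧ φ ≤ 2 * π ∧ Complex.exp (φ * Complex.I) = e := by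
    have harg : Complex.exp (e.arg * Complex.I) = e := by
      have := Complex.norm_mul_exp_arg_mul_I e
      rwa [he, Complex.ofReal_one, one_mul] at this
    have h2 := Complex.neg_pi_lt_arg e
    have h3 := Complex.arg_le_pi e
    rcases le_or_gt e.arg 0 with h | h
    · refine ⟨e.arg + 2 * π, by linarith, by linarith, ?_⟩
      have : ((e.arg + 2 * π : ℝ) : ℂ) * Complex.I = e.arg * Complex.I + 2 * π * Complex.I := by
        push_cast; ring
      rw [this, Complex.exp_add, Complex.exp_two_pi_mul_I, mul_one, harg]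
    · exact ⟨e.arg, h, by linarith, harg⟩
  rcases lt_or_ge r φ with hr | hr
  · have hsub : Icc (φ - r) φ ⊆
        {θ : ℝ | ‖Complex.exp (θ * Complex.I) - e‖ ≤ r} ∩ Ioc 0 (2 * π) := by
      rintro θ ⟨ha, hb⟩
      refine ⟨?_, by linarith, by linarith⟩
      show ‖Complex.exp (θ * Complex.I) - e‖ ≤ r
      rw [← hφ]
      refine (norm_exp_sub_exp_le θ φ).trans ?_
      rw [abs_le]; constructor <;> linarith
    refine le_trans ?_ (measure_mono hsub)
    rw [Real.volume_Icc]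
    apply ENNReal.ofReal_le_ofReal
    linarith
  · have hsub : Icc φ (φ + r) ⊆
        {θ : ℝ | ‖Complex.exp (θ * Complex.I) - e‖ ≤ r} ∩ Ioc 0 (2 * π) := by
      rintro θ ⟨ha, hb⟩
      refine ⟨?_, by linarith, by linarith⟩
      show ‖Complex.exp (θ * Complex.I) - e‖ ≤ r
      rw [← hφ]
      refine (norm_exp_sub_exp_le θ φ).trans ?_
      rw [abs_le]; constructor <;> linarith
    refine le_trans ?_ (measure_mono hsub)
    rw [Real.volume_Icc]
    apply ENNReal.ofReal_le_ofReal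
    linarith

/-- The zones: a family of points `e i` of the circle with radii `δ i`, such that `g` is large on
the arc about `e i`, and such that the arcs contain few points; then the sum of the radii is
bounded by the integral of `g`. -/
theorem zone_sum {ι : Type*} (N : Finset ι) (e : ι → ℂ) (he : ∀ i ∈ N, ‖e i‖ = 1) (δ : ι → ℝ)
    (hδ0 : ∀ i ∈ N, 0 < δ i) (hδ1 : ∀ i ∈ N, δ i ≤ 1) (g : ℝ → ℝ)
    (hg : IntervalIntegrable g volume 0 (2 * π)) (hg0 : ∀ θ, 0 ≤ g θ) {L : ℝ}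
    (hgL : ∫ θ in (0 : ℝ)..(2 * π), g θ ≤ 2 * π * L) {a c C d : ℝ} (ha : 0 < a) (ha1 : a ≤ 1)
    (hc : 0 < c) (hC : 0 ≤ C) (hd : 0 < d)
    (hbig : ∀ i ∈ N, ∀ θ : ℝ, ‖Complex.exp (θ * Complex.I) - e i‖ ≤ a * δ i →
      c * δ i * d ≤ g θ)
    (hcount : ∀ k ∈ N, (((N.filter (fun i => ‖e i - e k‖ ≤ 3 * a * δ k ∧ δ i ≤ 2 * δ k)).card : ℕ) : ℝ)
      ≤ C * δ k * d) :
    ∑ i ∈ N, δ i ≤ 4 * π * C / (a * c) * L := by
  classical
  have hpi := Real.pi_pos
  obtain ⟨u, hu, hdis, hcov⟩ := Vitali.exists_disjoint_subfamily_covering_enlargement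
    (fun i => closedBall (e i) (a * δ i)) (N : Set ι) δ 2 (by norm_num)
    (fun i hi => (hδ0 i hi).le) 1 (fun i hi => hδ1 i hi)
    (fun i hi => ⟨e i, mem_closedBall_self (mul_nonneg ha.le (hδ0 i hi).le)⟩)
  set U : Finset ι := N.filter (fun i => i ∈ u) with hU
  have hUN : ∀ k ∈ U, k ∈ N := fun k hk => (Finset.mem_filter.1 hk).1
  have hUu : ∀ k ∈ U, k ∈ u := fun k hk => (Finset.mem_filter.1 hk).2
  -- the covering
  have hcov' : ∀ i ∈ N, ∃ k ∈ U, ‖e i - e k‖ ≤ 3 * a * δ k ∧ δ i ≤ 2 * δ k := by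
    intro i hi
    obtain ⟨k, hk, ⟨x, hx1, hx2⟩, hk2⟩ := hcov i hi
    refine ⟨k, Finset.mem_filter.2 ⟨hu hk, hk⟩, ?_, hk2⟩
    have h1 : dist x (e i) ≤ a * δ i := hx1
    have h2 : dist x (e k) ≤ a * δ k := hx2
    have h3 : dist (e i) (e k) ≤ dist x (e i) + dist x (e k) := by
      have := dist_triangle (e i) x (e k)
      rwa [dist_comm (e i) x] at this
    rw [← dist_eq_norm]
    have h4 : a * δ i ≤ a * (2 * δ k) := mul_le_mul_of_nonneg_left hk2 ha.le
    linarith
  -- the sum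
  have hsum1 : ∑ i ∈ N, δ i ≤ ∑ k ∈ U, ∑ i ∈ N.filter (fun i => ‖e i - e k‖ ≤ 3 * a * δ k ∧
      δ i ≤ 2 * δ k), δ i := by
    have hstep : ∀ i ∈ N, δ i ≤ ∑ k ∈ U,
        (if ‖e i - e k‖ ≤ 3 * a * δ k ∧ δ i ≤ 2 * δ k then δ i else 0) := by
      intro i hi
      obtain ⟨k, hk, hk2⟩ := hcov' i hi
      calc δ i = (if ‖e i - e k‖ ≤ 3 * a * δ k ∧ δ i ≤ 2 * δ k then δ i else 0) := by
            rw [if_pos hk2]
        _ ≤ _ := Finset.single_le_sum (f := fun k => (if ‖e i - e k‖ ≤ 3 * a * δ k ∧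
              δ i ≤ 2 * δ k then δ i else 0)) (fun j _ => by
              by_cases h : ‖e i - e j‖ ≤ 3 * a * δ j ∧ δ i ≤ 2 * δ j
              · simp only [if_pos h]; exact (hδ0 i hi).le
              · simp only [if_neg h]; exact le_rfl) hk
    calc ∑ i ∈ N, δ i ≤ ∑ i ∈ N, ∑ k ∈ U,
        (if ‖e i - e k‖ ≤ 3 * a * δ k ∧ δ i ≤ 2 * δ k then δ i else 0) :=
          Finset.sum_le_sum hstep
      _ = ∑ k ∈ U, ∑ i ∈ N,
        (if ‖e i - e k‖ ≤ 3 * a * δ k ∧ δ i ≤ 2 * δ k then δ i else 0) := Finset.sum_comm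
      _ = _ := by
          apply Finset.sum_congr rfl
          intro k _
          rw [Finset.sum_filter]
  have hsum2 : ∑ i ∈ N, δ i ≤ ∑ k ∈ U, 2 * C * d * (δ k) ^ 2 := by
    refine hsum1.trans (Finset.sum_le_sum fun k hk => ?_)
    have hkN := hUN k hk
    calc ∑ i ∈ N.filter (fun i => ‖e i - e k‖ ≤ 3 * a * δ k ∧ δ i ≤ 2 * δ k), δ i
        ≤ ∑ i ∈ N.filter (fun i => ‖e i - e k‖ ≤ 3 * a * δ k ∧ δ i ≤ 2 * δ k), 2 * δ k :=
          Finset.sum_le_sum fun i hi => (Finset.mem_filter.1 hi).2.2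
      _ = ((N.filter (fun i => ‖e i - e k‖ ≤ 3 * a * δ k ∧ δ i ≤ 2 * δ k)).card : ℝ) *
          (2 * δ k) := by rw [Finset.sum_const, nsmul_eq_mul]
      _ ≤ (C * δ k * d) * (2 * δ k) :=
          mul_le_mul_of_nonneg_right (hcount k hkN) (by linarith [hδ0 k hkN])
      _ = 2 * C * d * (δ k) ^ 2 := by ring
  -- the integral
  set S : ι → Set ℝ := fun k => {θ : ℝ | ‖Complex.exp (θ * Complex.I) - e k‖ ≤ a * δ k} ∩
    Ioc 0 (2 * π) with hS
  have hSm : ∀ k, MeasurableSet (S k) := by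
    intro k
    refine MeasurableSet.inter ?_ measurableSet_Ioc
    exact measurableSet_le (by fun_prop) measurable_const
  have hSd : (U : Set ι).PairwiseDisjoint S := by
    intro i hi j hj hij
    have h1 := hdis (hUu i hi) (hUu j hj) hij
    rw [Function.onFun, Set.disjoint_left] at h1 ⊢
    rintro θ ⟨hθ1, -⟩ ⟨hθ2, -⟩
    exact h1 (a := Complex.exp (θ * Complex.I)) (by simpa [dist_eq_norm] using hθ1)
      (by simpa [dist_eq_norm] using hθ2)
  have hgi : IntegrableOn g (Ioc 0 (2 * π)) :=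
    (intervalIntegrable_iff_integrableOn_Ioc_of_le (by positivity)).1 hg
  have hint : ∑ k ∈ U, ∫ θ in S k, g θ ≤ 2 * π * L := by
    rw [← integral_biUnion_finset U (fun k _ => hSm k) hSd
      (fun k _ => hgi.mono_set inter_subset_right)]
    refine le_trans ?_ hgL
    rw [intervalIntegral.integral_of_le (by positivity)]
    refine setIntegral_mono_set hgi (Filter.Eventually.of_forall hg0) ?_
    refine LE.le.eventuallyLE ?_
    exact iUnion₂_subset fun k _ => inter_subset_right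
  have hlow : ∀ k ∈ U, a * c * d * (δ k) ^ 2 ≤ ∫ θ in S k, g θ := by
    intro k hk
    have hkN := hUN k hk
    have hδk := hδ0 k hkN
    have hfin : volume (S k) ≠ ⊤ := by
      refine ne_top_of_le_ne_top ?_ (measure_mono (inter_subset_right))
      rw [Real.volume_Ioc]; exact ENNReal.ofReal_ne_top
    have hvol : a * δ k ≤ (volume (S k)).toReal := by
      have h1 := arc_volume (he k hkN) (r := a * δ k) (by
        have := hδ1 k hkN
        nlinarith)
      exact (ENNReal.ofReal_le_iff_le_toReal hfin).1 h1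
    calc a * c * d * (δ k) ^ 2 = (a * δ k) * (c * δ k * d) := by ring
      _ ≤ (volume (S k)).toReal * (c * δ k * d) :=
          mul_le_mul_of_nonneg_right hvol (by positivity)
      _ = ∫ _θ in S k, (c * δ k * d) := by
          rw [setIntegral_const, smul_eq_mul]; rfl
      _ ≤ ∫ θ in S k, g θ := by
          refine setIntegral_mono_on ?_ (hgi.mono_set inter_subset_right) (hSm k) ?_
          · exact integrableOn_const hfin
          · rintro θ ⟨hθ, -⟩
            exact hbig k hkN θ hθ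
  have hsq : a * c * d * ∑ k ∈ U, (δ k) ^ 2 ≤ 2 * π * L := by
    rw [Finset.mul_sum]
    exact (Finset.sum_le_sum hlow).trans hint
  have hacd : 0 < a * c * d := by positivity
  have hsq' : ∑ k ∈ U, (δ k) ^ 2 ≤ 2 * π * L / (a * c * d) := by
    rw [le_div_iff₀ hacd]; linarith
  calc ∑ i ∈ N, δ i ≤ ∑ k ∈ U, 2 * C * d * (δ k) ^ 2 := hsum2
    _ = 2 * C * d * ∑ k ∈ U, (δ k) ^ 2 := by rw [Finset.mul_sum]
    _ ≤ 2 * C * d * (2 * π * L / (a * c * d)) :=
        mul_le_mul_of_nonneg_left hsq' (by positivity)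
    _ = 4 * π * C / (a * c) * L := by
        field_simp
        ring

end H73.LB
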