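import Pool.Agent.H73.LB.MainA
import Pool.Agent.H95.LB.Arith
import Pool.Agent.H90.LB.NumA

/-!
# LB: the assembly with symmetrised measures (all irreducible polynomials)
-/

set_option autoImplicit false

namespace H73.LB

open H25.Arith H25.Arith.Disc H91.LK H82.LB Polynomial

theorem assembly_coreA (C : ℝ) (hC : 1 ≤ C) : ∃ c : ℝ, 0 < c ∧ ∀ (K : Type) [Field K]
    [NumberField K] [IsGalois ℚ K] (σ : K →+* ℂ) (α : K) (L : ℝ),
    IsIntegral ℤ α → 1 ≤ (orb α).card → 0 ≤ L →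
    0 < ∑ x ∈ orb α, Real.posLog ‖σ x‖ → ∑ x ∈ orb α, Real.posLog ‖σ x‖ ≤ 1 →
    (∀ p : ℕ, p.Prime → (blk α p α).card < p) →
    (∀ p q : ℕ, 0 < p → 0 < q → p ≠ q → ∀ x ∈ orb α, ∀ y ∈ orb α, x ^ p ≠ y ^ q) →
    (∀ ε : ℝ, 0 < ε → ε ≤ 1 / 4 → ∀ p n : ℕ, 1 ≤ n → (∀ x ∈ orb α, (blk α p x).card ≤ n) →
      ∃ r : K → ℝ, (∀ x ∈ orb α, 0 ≤ r x) ∧
      (∀ x ∈ orb α, r x ≤ 1) ∧ (∀ x ∈ orb α, ‖(r x : ℂ) * rf (σ x)‖ < 1) ∧
      ∑ x ∈ orb α, (1 - r x) ≤ C * ε * (1 + L) ∧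
      (1 / (n : ℝ)) * ∑ x ∈ orb α, ∑ y ∈ blk α p x, ∑ y' ∈ orb α,
        kr (r x * rf (σ y)) (r y' * rf (σ y')) ≤
        C * (orb α).card * (1 + L) *
          (Real.log (n / ε) + 2 * ∑ x ∈ orb α, Real.posLog ‖σ x‖)) →
    c / (1 + L) ^ 3 ≤ ∑ x ∈ orb α, Real.posLog ‖σ x‖ := by
  classical
  obtain ⟨c, hc, hnum⟩ := H90.LB.numbersA C hC
  refine ⟨c, hc, ?_⟩
  intro K _ _ _ σ α L hα hcard hL h0 h1 hbl hne hen
  refine hnum L _ hL h0 h1 ?_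
  intro ε hε hε2 T hT Q hQ
  have hd1 : (1 : ℝ) ≤ (orb α).card := by exact_mod_cast hcard
  have hd0 : (0 : ℝ) < (orb α).card := by linarith
  -- the first measure
  obtain ⟨r, hr0, hr1, hrlt, hη, hE⟩ := hen ε hε hε2 1 1 le_rfl (fun x hx =>
    Finset.card_le_one.2 fun a ha b hb => by
      rw [mem_blk, pow_one, pow_one] at ha hb
      rw [ha.2, hb.2])
  have hE2 : ∑ x ∈ orb α, ∑ y ∈ orb α, kr (r x * rf (σ x)) (r y * rf (σ y)) ≤
      C * (orb α).card * (1 + L) *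
          (Real.log (1 / ε) + 2 * ∑ x ∈ orb α, Real.posLog ‖σ x‖) := by
    rw [Nat.cast_one, div_one, one_mul] at hE
    refine le_trans (le_of_eq ?_) hE
    refine Finset.sum_congr rfl fun x hx => ?_
    have hb : blk α 1 x = {x} := by
      ext y
      rw [mem_blk, pow_one, pow_one, Finset.mem_singleton]
      exact ⟨fun h => h.2, fun h => ⟨h ▸ hx, h⟩⟩
    rw [hb, Finset.sum_singleton]
  -- the data of the primes
  have hpack : ∀ p : ℕ, ∃ n : ℕ, p ∈ Q → 0 < n ∧ n ≤ p ∧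
      (∀ x ∈ orb α, (blk α p x).card ≤ n) ∧
      (∀ x ∈ orb α, ∀ y ∈ orb α, x ^ (p * n) = y ^ (p * n) → x ^ p = y ^ p) ∧
      (n : ℝ) * (orb α).card * Real.log p ≤
        ∑ x ∈ orb α, ∑ y ∈ orb α, Real.log ‖σ x ^ n - σ y ^ (p * n)‖ := by
    intro p
    by_cases hp : p ∈ Q
    · obtain ⟨n, h1, h2, h3, h4, h5⟩ := H95.LB.pack σ α hα hne (hQ p hp) (by
        have := hbl p (hQ p hp)
        convert this using 2
        ext y
        rw [mem_blk, Finset.mem_filter])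
      refine ⟨n, fun _ => ⟨h1, h2, fun x hx => ?_, h4, h5⟩⟩
      have h6 := h3 x hx
      convert h6 using 2
      ext y
      rw [mem_blk, Finset.mem_filter]
    · exact ⟨0, fun h => absurd h hp⟩
  choose n hn using hpack
  have hrad : ∀ p : ℕ, ∃ s : K → ℝ, p ∈ Q → (∀ x ∈ orb α, 0 ≤ s x) ∧
      (∀ x ∈ orb α, s x ≤ 1) ∧ (∀ x ∈ orb α, ‖(s x : ℂ) * rf (σ x)‖ < 1) ∧
      ∑ x ∈ orb α, (1 - s x) ≤ C * ε * (1 + L) ∧
      (1 / (n p : ℝ)) * ∑ x ∈ orb α, ∑ y ∈ blk α p x, ∑ y' ∈ orb α,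
        kr (s x * rf (σ y)) (s y' * rf (σ y')) ≤
        C * (orb α).card * (1 + L) *
          (Real.log (n p / ε) + 2 * ∑ x ∈ orb α, Real.posLog ‖σ x‖) := by
    intro p
    by_cases hp : p ∈ Q
    · obtain ⟨h1, h2, h3, h4, h5⟩ := hn p hp
      obtain ⟨s, hs⟩ := hen ε hε hε2 p (n p) h1 h3
      exact ⟨s, fun _ => hs⟩
    · exact ⟨0, fun h => absurd h hp⟩
  choose s hs using hrad
  have main := main_ineqA σ α hα hne T hT Q hQ n (fun p hp => (hn p hp).1)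
    (fun p hp => (hn p hp).2.2.2.1) (fun p hp => (hn p hp).2.2.2.2) r hr0 hr1 hrlt s
    (fun p hp => (hs p hp).1) (fun p hp => (hs p hp).2.1) (fun p hp => (hs p hp).2.2.1)
    (C * ε * (1 + L)) hη (fun p hp => (hs p hp).2.2.2.1)
  set m : ℝ := ∑ x ∈ orb α, Real.posLog ‖σ x‖ with hm
  set d : ℝ := ((orb α).card : ℝ) with hd
  have hblocks : ∀ p ∈ Q, (1 / (n p : ℝ)) * ∑ x ∈ orb α, ∑ y ∈ blk α p x, ∑ y' ∈ orb α,
        kr (s p x * rf (σ y)) (s p y' * rf (σ y')) ≤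
      d * (C * (1 + L) * (Real.log (p / ε) + 2 * m)) := by
    intro p hp
    obtain ⟨h1, h2, -⟩ := hn p hp
    have h5 := (hs p hp).2.2.2.2
    refine h5.trans ?_
    have hn0 : (0 : ℝ) < n p := by exact_mod_cast h1
    have hnp : (n p : ℝ) ≤ p := by exact_mod_cast h2
    have h6 : Real.log (n p / ε) ≤ Real.log (p / ε) :=
      Real.log_le_log (by positivity) (div_le_div_of_nonneg_right hnp hε.le)
    have h7 : 0 ≤ C * d * (1 + L) := by positivity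
    have h8 := mul_le_mul_of_nonneg_left (add_le_add_left h6 (2 * m)) h7
    refine h8.trans (le_of_eq ?_)
    ring
  have hsum := Finset.sum_le_sum hblocks
  rw [← Finset.mul_sum] at hsum
  have hT2 : T ^ 2 * ∑ x ∈ orb α, ∑ y ∈ orb α, kr (r x * rf (σ x)) (r y * rf (σ y)) ≤
      T ^ 2 * (C * d * (1 + L) * (Real.log (1 / ε) + 2 * m)) :=
    mul_le_mul_of_nonneg_left hE2 (sq_nonneg T)
  refine le_of_mul_le_mul_right ?_ hd0
  nlinarith [main, hsum, hT2]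

end H73.LB
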