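import Pool.Agent.H7.LB.Main

/-!
# LB, the main inequality with symmetrised measures

For a prime `p` for which the `p`-th powers of the conjugates coincide in blocks, the measure of the `p`-th powers
is replaced by its part with the frequencies divisible by `n p` (`n p = p`); for the other primes `n p = 1`.
-/

set_option autoImplicit false

namespace H73.LB

open H25.Arith H25.Arith.Disc H91.LK H82.LB Polynomial ComplexConjugate

/-- the part of the kernel with the frequencies divisible by `l` -/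
theorem kr_hasSum_dvd {l : ℕ} (hl : 0 < l) {w : ℂ} (hw : ‖w‖ < 1) :
    HasSum (fun n : ℕ => if l ∣ n then (w ^ n / n).re else 0) (-Real.log ‖1 - w ^ l‖ / l) := by
  have h1 : HasSum (fun n : ℕ => ((w ^ l) ^ n / n).re) (-Real.log ‖1 - w ^ l‖) :=
    kr_hasSum (by rw [norm_pow]; exact pow_lt_one₀ (norm_nonneg _) hw hl.ne')
  have h2 := h1.div_const (l : ℝ)
  have hinj : Function.Injective (fun n : ℕ => l * n) := fun a b h => Nat.eq_of_mul_eq_mul_left hl h
  refine (hinj.hasSum_iff ?_).1 ?_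
  · intro x hx
    refine if_neg fun h => hx ?_
    obtain ⟨k, rfl⟩ := h
    exact ⟨k, rfl⟩
  · have he : ((fun n : ℕ => if l ∣ n then (w ^ n / n).re else 0) ∘ fun n : ℕ => l * n) =
        fun n : ℕ => ((w ^ l) ^ n / n).re / l := by
      funext n
      simp only [Function.comp_apply]
      rw [if_pos (Dvd.intro n rfl), ← pow_mul, ← Complex.div_natCast_re]
      congr 1
      push_cast
      rw [div_div, mul_comm (n : ℂ)]
    rw [he]
    exact h2

theorem kr_posdef_lcm {ι : Type*} [Fintype ι] (c : ι → ℝ) (z : ι → ℂ) (hz : ∀ i, ‖z i‖ < 1)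
    (n : ι → ℕ) (hn : ∀ i, 0 < n i) :
    0 ≤ ∑ i, ∑ j, c i * c j * (kr (z i ^ Nat.lcm (n i) (n j)) (z j ^ Nat.lcm (n i) (n j)) /
      (Nat.lcm (n i) (n j) : ℕ)) := by
  have hw : ∀ i j, ‖z i * conj (z j)‖ < 1 := by
    intro i j
    rw [norm_mul, RCLike.norm_conj]
    have h1 := hz i
    have h2 := hz j
    have h3 := norm_nonneg (z i)
    have h4 := norm_nonneg (z j)
    nlinarith
  have hkr : ∀ i j, kr (z i ^ Nat.lcm (n i) (n j)) (z j ^ Nat.lcm (n i) (n j)) =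
      -Real.log ‖1 - (z i * conj (z j)) ^ Nat.lcm (n i) (n j)‖ := by
    intro i j
    unfold kr
    rw [map_pow, mul_pow]
  have h1 : HasSum (fun N : ℕ => ∑ i, ∑ j, c i * c j *
      (if Nat.lcm (n i) (n j) ∣ N then ((z i * conj (z j)) ^ N / N).re else 0))
      (∑ i, ∑ j, c i * c j * (kr (z i ^ Nat.lcm (n i) (n j)) (z j ^ Nat.lcm (n i) (n j)) /
      (Nat.lcm (n i) (n j) : ℕ))) := by
    refine hasSum_sum fun i _ => hasSum_sum fun j _ => ?_
    rw [hkr]
    exact (kr_hasSum_dvd (Nat.lcm_pos (hn i) (hn j)) (hw i j)).mul_left (c i * c j)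
  refine h1.nonneg fun N => ?_
  set c' : ι → ℝ := fun i => if n i ∣ N then c i else 0 with hc'
  have h2 : ∑ i, ∑ j, c i * c j *
      (if Nat.lcm (n i) (n j) ∣ N then ((z i * conj (z j)) ^ N / N).re else 0) =
      Complex.normSq (∑ i, (c' i : ℂ) * z i ^ N) / N := by
    have h3 : ∀ i j, c i * c j *
        (if Nat.lcm (n i) (n j) ∣ N then ((z i * conj (z j)) ^ N / N).re else 0) =
        (((c' i : ℂ) * z i ^ N) * conj ((c' j : ℂ) * z j ^ N)).re / N := by
      intro i j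
      have h4 : ((c' i : ℂ) * z i ^ N) * conj ((c' j : ℂ) * z j ^ N) =
          ((c' i * c' j : ℝ) : ℂ) * (z i * conj (z j)) ^ N := by
        rw [map_mul, map_pow, Complex.conj_ofReal, mul_pow]
        push_cast
        ring
      rw [h4, Complex.re_ofReal_mul]
      have h5 : ((z i * conj (z j)) ^ N / (N : ℂ)).re = ((z i * conj (z j)) ^ N).re / N := by
        rw [← Complex.ofReal_natCast, Complex.div_ofReal_re]
      rw [h5]
      by_cases hi : n i ∣ N
      · by_cases hj : n j ∣ N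
        · rw [if_pos (Nat.lcm_dvd hi hj), hc']
          simp only
          rw [if_pos hi, if_pos hj]
          ring
        · rw [if_neg fun h => hj ((Nat.dvd_lcm_right _ _).trans h), hc']
          simp only
          rw [if_neg hj]
          ring
      · rw [if_neg fun h => hi ((Nat.dvd_lcm_left _ _).trans h), hc']
        simp only
        rw [if_neg hi]
        ring
    simp only [h3]
    rw [← Complex.ofReal_re (Complex.normSq _), ← Complex.mul_conj, map_sum, Finset.sum_mul_sum,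
      Complex.re_sum, Finset.sum_div]
    refine Finset.sum_congr rfl fun i _ => ?_
    rw [Complex.re_sum, Finset.sum_div]
  rw [h2]
  exact div_nonneg (Complex.normSq_nonneg _) (Nat.cast_nonneg _)

/-- the complex numbers with the same `N`-th power -/
noncomputable def RR (N : ℕ) (a : ℂ) : Finset ℂ :=
  (Finset.range N).image fun k : ℕ => Complex.exp (2 * Real.pi * Complex.I * k / N) * a

theorem exp_root {N : ℕ} (hN : 0 < N) (k : ℕ) :
    Complex.exp (2 * Real.pi * Complex.I * k / N) ^ N = 1 := by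
  have hζ := Complex.isPrimitiveRoot_exp N hN.ne'
  have h1 : Complex.exp (2 * Real.pi * Complex.I * k / N) =
      Complex.exp (2 * Real.pi * Complex.I / N) ^ k := by
    rw [← Complex.exp_nat_mul]
    congr 1
    ring
  rw [h1, ← pow_mul, Nat.mul_comm, pow_mul, hζ.pow_eq_one, one_pow]

theorem exp_inj {N : ℕ} (hN : 0 < N) {a : ℂ} (ha : a ≠ 0) :
    Set.InjOn (fun k : ℕ => Complex.exp (2 * Real.pi * Complex.I * k / N) * a)
      (Finset.range N : Set ℕ) := by
  intro i hi j hj hij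
  have hζ := Complex.isPrimitiveRoot_exp N hN.ne'
  have h1 : ∀ k : ℕ, Complex.exp (2 * Real.pi * Complex.I * k / N) =
      Complex.exp (2 * Real.pi * Complex.I / N) ^ k := by
    intro k
    rw [← Complex.exp_nat_mul]
    congr 1
    ring
  have h2 := mul_right_cancel₀ ha hij
  rw [h1, h1] at h2
  exact hζ.pow_inj (Finset.mem_range.1 (Finset.mem_coe.1 hi))
    (Finset.mem_range.1 (Finset.mem_coe.1 hj)) h2

theorem mem_RR {N : ℕ} (hN : 0 < N) {a w : ℂ} : w ∈ RR N a ↔ w ^ N = a ^ N := by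
  unfold RR
  rw [Finset.mem_image]
  constructor
  · rintro ⟨k, -, rfl⟩
    rw [mul_pow, exp_root hN, one_mul]
  · intro h
    by_cases ha : a = 0
    · subst ha
      rw [zero_pow hN.ne'] at h
      have := pow_eq_zero_iff hN.ne' |>.1 h
      exact ⟨0, Finset.mem_range.2 hN, by rw [this, mul_zero]⟩
    · have : NeZero N := ⟨hN.ne'⟩
      have hζ := Complex.isPrimitiveRoot_exp N hN.ne'
      have h1 : (w / a) ^ N = 1 := by
        rw [div_pow, h, div_self (pow_ne_zero _ ha)]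
      obtain ⟨i, hi, hi2⟩ := hζ.eq_pow_of_pow_eq_one h1
      refine ⟨i, Finset.mem_range.2 hi, ?_⟩
      have h2 : Complex.exp (2 * Real.pi * Complex.I * i / N) =
          Complex.exp (2 * Real.pi * Complex.I / N) ^ i := by
        rw [← Complex.exp_nat_mul]
        congr 1
        ring
      rw [h2, hi2, div_mul_cancel₀ _ ha]

theorem card_RR (N : ℕ) (a : ℂ) : (RR N a).card ≤ N := by
  unfold RR
  exact Finset.card_image_le.trans (Finset.card_range N).le

theorem norm_RR {N : ℕ} (hN : 0 < N) {a w : ℂ} (hw : w ∈ RR N a) : ‖w‖ = ‖a‖ := by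
  have h := (mem_RR hN).1 hw
  have h2 : ‖w‖ ^ N = ‖a‖ ^ N := by rw [← norm_pow, ← norm_pow, h]
  exact (pow_left_inj₀ (norm_nonneg _) (norm_nonneg _) hN.ne').1 h2

/-- the kernel of the powers as a sum over the roots -/
theorem kr_pow_RR {N : ℕ} (hN : 0 < N) {a b : ℂ} (ha0 : a ≠ 0) (r : ℝ)
    (ha : ‖(r : ℂ) * rf a‖ < 1) (hb : ‖b‖ < 1) :
    kr ((r * rf a) ^ N) (b ^ N) = ∑ w ∈ RR N a, kr (r * rf w) b := by
  rw [kr_pow hN ha hb, RR, Finset.sum_image (exp_inj hN ha0)]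
  refine Finset.sum_congr rfl fun k _ => ?_
  have hω : ‖Complex.exp (2 * Real.pi * Complex.I * k / N)‖ = 1 := by
    have h1 : (2 * Real.pi * Complex.I * k / N : ℂ) =
        ((2 * Real.pi * k / N : ℝ) : ℂ) * Complex.I := by
      push_cast
      ring
    rw [h1, Complex.norm_exp_ofReal_mul_I]
  rw [rf_mul_root _ _ hω]
  congr 1
  ring

theorem prod_RR {N : ℕ} (hN : 0 < N) {a : ℂ} (ha0 : a ≠ 0) :
    (X : ℂ[X]) ^ N - C (a ^ N) = ∏ w ∈ RR N a, (X - C w) := by
  have hζ := Complex.isPrimitiveRoot_exp N hN.ne'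
  have hmon : ((X : ℂ[X]) ^ N - C (a ^ N)).Monic := monic_X_pow_sub_C _ hN.ne'
  have hdvd : ∏ w ∈ RR N a, (X - C w) ∣ (X : ℂ[X]) ^ N - C (a ^ N) := by
    refine Finset.prod_dvd_of_coprime ?_ ?_
    · intro u _ v _ huv
      exact isCoprime_X_sub_C_of_isUnit_sub (sub_ne_zero.2 huv).isUnit
    · intro w hw
      rw [dvd_iff_isRoot, IsRoot.def]
      simp [(mem_RR hN).1 hw]
  have hcard : (RR N a).card = N := by
    unfold RR
    rw [Finset.card_image_of_injOn (exp_inj hN ha0), Finset.card_range]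
  refine (eq_of_monic_of_dvd_of_natDegree_le (monic_prod_of_monic _ _ fun w _ => monic_X_sub_C w)
    hmon hdvd ?_)
  rw [natDegree_X_pow_sub_C, natDegree_prod_of_monic _ _ fun w _ => monic_X_sub_C w]
  simp [hcard]

variable {K : Type} [Field K] [NumberField K] [IsGalois ℚ K]

open Classical in
/-- the block of `x` -/
noncomputable def blk (α : K) (p : ℕ) (x : K) : Finset K := (orb α).filter fun y => y ^ p = x ^ p

omit [IsGalois ℚ K] in
theorem mem_blk {α : K} {p : ℕ} {x y : K} : y ∈ blk α p x ↔ y ∈ orb α ∧ y ^ p = x ^ p := by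
  classical
  simp only [blk, Finset.mem_filter]

/-- the quotient polynomial -/
noncomputable def GG (α : K) (p N : ℕ) (x : K) : K[X] :=
  (X ^ N - C (x ^ N)) /ₘ ∏ y ∈ blk α p x, (X - C y)

omit [IsGalois ℚ K] in
theorem GG_mul (α : K) (p n : ℕ) (x : K) :
    (∏ y ∈ blk α p x, (X - C y)) * GG α p (p * n) x = X ^ (p * n) - C (x ^ (p * n)) := by
  have hmon : (∏ y ∈ blk α p x, (X - C y)).Monic := monic_prod_of_monic _ _ fun w _ => monic_X_sub_C w
  have hdvd : ∏ y ∈ blk α p x, (X - C y) ∣ X ^ (p * n) - C (x ^ (p * n)) := by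
    refine Finset.prod_dvd_of_coprime ?_ ?_
    · intro u _ v _ huv
      exact isCoprime_X_sub_C_of_isUnit_sub (sub_ne_zero.2 huv).isUnit
    · intro w hw
      rw [dvd_iff_isRoot, IsRoot.def]
      simp [pow_mul, (mem_blk.1 hw).2]
  have h1 := modByMonic_add_div (X ^ (p * n) - C (x ^ (p * n))) (∏ y ∈ blk α p x, (X - C y))
  rw [(modByMonic_eq_zero_iff_dvd hmon).2 hdvd, zero_add] at h1
  exact h1

omit [IsGalois ℚ K] in
theorem GG_map (α : K) (p N : ℕ) (g : K ≃ₐ[ℚ] K) (x : K) :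
    (GG α p N x).map (g : K →+* K) = GG α p N (g x) := by
  unfold GG
  rw [map_divByMonic _ (monic_prod_of_monic _ _ fun w _ => monic_X_sub_C w), Polynomial.map_prod]
  congr 1
  · simp
  · simp only [Polynomial.map_sub, map_X, map_C]
    refine Finset.prod_nbij (fun y => g y) ?_ ?_ ?_ ?_
    · intro y hy
      rw [mem_blk] at hy ⊢
      exact ⟨map_mem_orb hy.1 g, by rw [← map_pow, hy.2, map_pow]⟩
    · intro y _ z _ h
      exact g.injective h
    · intro y hy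
      rw [Finset.mem_coe, mem_blk] at hy
      refine ⟨g.symm y, ?_, by simp⟩
      rw [Finset.mem_coe, mem_blk]
      refine ⟨map_mem_orb hy.1 g.symm, g.injective ?_⟩
      rw [map_pow, map_pow]
      simpa using hy.2
    · intro y _
      rfl

omit [IsGalois ℚ K] in
theorem GG_complex (σ : K →+* ℂ) (α : K) {p n : ℕ} (hN : 0 < p * n) {x : K} (hx0 : x ≠ 0) :
    (GG α p (p * n) x).map σ =
      ∏ w ∈ RR (p * n) (σ x) \ (blk α p x).image σ, (X - C w) := by
  classical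
  have hsub : (blk α p x).image σ ⊆ RR (p * n) (σ x) := by
    intro w hw
    obtain ⟨y, hy, rfl⟩ := Finset.mem_image.1 hw
    rw [mem_RR hN, ← map_pow, ← map_pow, pow_mul, pow_mul, (mem_blk.1 hy).2]
  have h1 := congrArg (Polynomial.map σ) (GG_mul α p n x)
  rw [Polynomial.map_mul, Polynomial.map_prod, Polynomial.map_sub, Polynomial.map_pow, map_X,
    map_C, map_pow, prod_RR hN ((map_ne_zero σ).2 hx0), ← Finset.prod_sdiff hsub,
    Finset.prod_image (fun u _ v _ h => σ.injective h)] at h1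
  simp only [Polynomial.map_sub, map_X, map_C] at h1
  rw [mul_comm] at h1
  exact mul_right_cancel₀ (Finset.prod_ne_zero_iff.2 fun y _ => X_sub_C_ne_zero _) h1

/-- the product over the pairs outside the blocks -/
theorem out_nonneg (σ : K →+* ℂ) (α : K) (hα : IsIntegral ℤ α) {p n : ℕ} (hN : 0 < p * n)
    (h0 : ∀ x ∈ orb α, x ≠ 0)
    (hinj : ∀ x ∈ orb α, ∀ y ∈ orb α, x ^ (p * n) = y ^ (p * n) → x ^ p = y ^ p) :
    (∀ x ∈ orb α, ∀ y ∈ orb α, ∀ w ∈ RR (p * n) (σ x) \ (blk α p x).image σ, w ≠ σ y) ∧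
    0 ≤ ∑ x ∈ orb α, ∑ y ∈ orb α, ∑ w ∈ RR (p * n) (σ x) \ (blk α p x).image σ,
      Real.log ‖w - σ y‖ := by
  classical
  have hne : ∀ x ∈ orb α, ∀ y ∈ orb α, ∀ w ∈ RR (p * n) (σ x) \ (blk α p x).image σ,
      w ≠ σ y := by
    intro x hx y hy w hw h
    rw [Finset.mem_sdiff, mem_RR hN] at hw
    refine hw.2 (Finset.mem_image.2 ⟨y, mem_blk.2 ⟨hy, ?_⟩, h.symm⟩)
    refine hinj y hy x hx (σ.injective ?_)
    rw [map_pow, map_pow, ← h, hw.1]
  refine ⟨hne, ?_⟩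
  have hval : ∀ x ∈ orb α, ∀ y : K, σ ((GG α p (p * n) x).eval y) =
      ∏ w ∈ RR (p * n) (σ x) \ (blk α p x).image σ, (σ y - w) := by
    intro x hx y
    have h1 : σ ((GG α p (p * n) x).eval y) = ((GG α p (p * n) x).map σ).eval (σ y) := by
      rw [eval_map_apply]
    rw [h1, GG_complex σ α hN (h0 x hx), eval_prod]
    simp
  have hσ : ∀ x ∈ orb α, ∀ y ∈ orb α, ∀ w ∈ RR (p * n) (σ x) \ (blk α p x).image σ,
      σ y - w ≠ 0 := fun x hx y hy w hw => sub_ne_zero.2 (hne x hx y hy w hw).symm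
  have h1 := log_pairs_nonneg σ α (fun x y => (GG α p (p * n) x).eval y) ?_ ?_ ?_
  · refine h1.trans (le_of_eq ?_)
    refine Finset.sum_congr rfl fun x hx => Finset.sum_congr rfl fun y hy => ?_
    rw [hval x hx y, norm_prod, Real.log_prod fun w hw => norm_ne_zero_iff.2 (hσ x hx y hy w hw)]
    refine Finset.sum_congr rfl fun w _ => ?_
    rw [norm_sub_rev]
  · intro x hx y hy
    have h2 : IsIntegral ℤ (σ ((GG α p (p * n) x).eval y)) := by
      rw [hval x hx y]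
      refine IsIntegral.prod _ fun w hw => ?_
      have hi : ∀ u : K, IsIntegral ℤ u → IsIntegral ℤ (σ u) := fun u hu =>
        hu.map σ.toIntAlgHom
      refine (hi y (orb_integral hα hy)).sub ?_
      refine IsIntegral.of_pow hN ?_
      rw [(mem_RR hN).1 (Finset.mem_sdiff.1 hw).1]
      exact (hi x (orb_integral hα hx)).pow _
    exact (isIntegral_algHom_iff σ.toIntAlgHom σ.injective).1 h2
  · intro g x y
    rw [← GG_map α p (p * n) g x]
    exact (eval_map_apply (g : K →+* K) y).symm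
  · intro x hx y hy h2
    have h3 := hval x hx y
    rw [h2, map_zero] at h3
    exact Finset.prod_ne_zero_iff.2 (hσ x hx y hy) h3.symm

/-- the self energy of the symmetrised powers -/
theorem self_leA (σ : K →+* ℂ) (α : K) (hα : IsIntegral ℤ α) {p n : ℕ} (hp : 0 < p) (hn : 0 < n)
    (h0 : ∀ x ∈ orb α, x ≠ 0)
    (hinj : ∀ x ∈ orb α, ∀ y ∈ orb α, x ^ (p * n) = y ^ (p * n) → x ^ p = y ^ p)
    (s : K → ℝ) (hs0 : ∀ x ∈ orb α, 0 ≤ s x) (hs1 : ∀ x ∈ orb α, s x ≤ 1)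
    (hs : ∀ x ∈ orb α, ‖(s x : ℂ) * rf (σ x)‖ < 1) {U : ℝ}
    (hU : ∑ x ∈ orb α, (Real.posLog ‖σ x‖ + (1 - s x)) ≤ U) :
    ∑ x ∈ orb α, ∑ y ∈ orb α, kr ((s x * rf (σ x)) ^ (p * n)) ((s y * rf (σ y)) ^ (p * n)) ≤
      ∑ x ∈ orb α, ∑ y ∈ blk α p x, ∑ y' ∈ orb α, kr (s x * rf (σ y)) (s y' * rf (σ y')) +
        2 * ((p : ℝ) * n) * ((orb α).card * U) := by
  classical
  have hN : 0 < p * n := Nat.mul_pos hp hn
  obtain ⟨hne, hlog⟩ := out_nonneg σ α hα hN h0 hinj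
  have hsub : ∀ x : K, (blk α p x).image σ ⊆ RR (p * n) (σ x) := by
    intro x w hw
    obtain ⟨y, hy, rfl⟩ := Finset.mem_image.1 hw
    rw [mem_RR hN, ← map_pow, ← map_pow, pow_mul, pow_mul, (mem_blk.1 hy).2]
  set u : K → ℝ := fun x => Real.posLog ‖σ x‖ + (1 - s x) with hu
  have hu0 : ∀ x ∈ orb α, 0 ≤ u x := by
    intro x hx
    have h1 := hs1 x hx
    have h3 : 0 ≤ Real.posLog ‖σ x‖ := Real.posLog_nonneg
    simp only [hu]
    linarith
  have hterm : ∀ x ∈ orb α, ∀ y ∈ orb α,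
      kr ((s x * rf (σ x)) ^ (p * n)) ((s y * rf (σ y)) ^ (p * n)) ≤
      ∑ y' ∈ blk α p x, kr (s x * rf (σ y')) (s y * rf (σ y)) +
      (- ∑ w ∈ RR (p * n) (σ x) \ (blk α p x).image σ, Real.log ‖w - σ y‖ +
        ((p : ℝ) * n) * u x + ((p : ℝ) * n) * u y) := by
    intro x hx y hy
    rw [kr_pow_RR hN ((map_ne_zero σ).2 (h0 x hx)) (s x) (hs x hx) (hs y hy),
      ← Finset.sum_sdiff (hsub x), Finset.sum_image (fun a _ b _ h => σ.injective h), add_comm]
    refine add_le_add le_rfl ?_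
    have h1 : ∀ w ∈ RR (p * n) (σ x) \ (blk α p x).image σ,
        kr (s x * rf w) (s y * rf (σ y)) ≤ - Real.log ‖w - σ y‖ + (u x + u y) := by
      intro w hw
      have h2 := kr_le (hne x hx y hy w hw) (hs0 x hx) (hs1 x hx) (hs0 y hy) (hs1 y hy)
      rw [norm_RR hN (Finset.mem_sdiff.1 hw).1] at h2
      simp only [hu]
      linarith
    refine (Finset.sum_le_sum h1).trans ?_
    rw [Finset.sum_add_distrib, Finset.sum_neg_distrib, Finset.sum_const, nsmul_eq_mul]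
    have h3 : ((RR (p * n) (σ x) \ (blk α p x).image σ).card : ℝ) ≤ (p : ℝ) * n := by
      have h4 := (Finset.card_le_card (Finset.sdiff_subset (s := RR (p * n) (σ x))
        (t := (blk α p x).image σ))).trans (card_RR (p * n) (σ x))
      exact_mod_cast h4
    have h5 := mul_le_mul_of_nonneg_right h3 (add_nonneg (hu0 x hx) (hu0 y hy))
    linarith
  refine (Finset.sum_le_sum fun x hx => Finset.sum_le_sum fun y hy => hterm x hx y hy).trans ?_
  simp only [Finset.sum_add_distrib, Finset.sum_neg_distrib, Finset.sum_const, nsmul_eq_mul,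
    ← Finset.mul_sum]
  have hcomm : ∑ x ∈ orb α, ∑ y ∈ orb α, ∑ y' ∈ blk α p x, kr (s x * rf (σ y')) (s y * rf (σ y)) =
      ∑ x ∈ orb α, ∑ y ∈ blk α p x, ∑ y' ∈ orb α, kr (s x * rf (σ y)) (s y' * rf (σ y')) :=
    Finset.sum_congr rfl fun x _ => Finset.sum_comm
  rw [hcomm]
  have hd0 : 0 ≤ ((orb α).card : ℝ) := Nat.cast_nonneg _
  have hpn : 0 ≤ (p : ℝ) * n := by positivity
  have hU' : ∑ x ∈ orb α, u x ≤ U := hU
  have h6 : ((orb α).card : ℝ) * (((p : ℝ) * n) * ∑ x ∈ orb α, u x) ≤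
      ((orb α).card : ℝ) * (((p : ℝ) * n) * U) :=
    mul_le_mul_of_nonneg_left (mul_le_mul_of_nonneg_left hU' hpn) hd0
  nlinarith [h6, hlog]

omit [IsGalois ℚ K] in
/-- two different systems of radii -/
theorem cross_leA (σ : K →+* ℂ) (α : K) (r s : K → ℝ)
    (hr0 : ∀ x ∈ orb α, 0 ≤ r x) (hr1 : ∀ x ∈ orb α, r x ≤ 1)
    (hs0 : ∀ x ∈ orb α, 0 ≤ s x) (hs1 : ∀ x ∈ orb α, s x ≤ 1) (p q : ℕ)
    (h : ∀ x ∈ orb α, ∀ y ∈ orb α, x ^ p ≠ y ^ q) {U : ℝ}
    (hU1 : ∑ x ∈ orb α, (Real.posLog ‖σ x‖ + (1 - r x)) ≤ U)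
    (hU2 : ∑ x ∈ orb α, (Real.posLog ‖σ x‖ + (1 - s x)) ≤ U) :
    ∑ x ∈ orb α, ∑ y ∈ orb α, kr ((r x * rf (σ x)) ^ p) ((s y * rf (σ y)) ^ q) ≤
      - ∑ x ∈ orb α, ∑ y ∈ orb α, Real.log ‖σ x ^ p - σ y ^ q‖ +
        ((p : ℝ) + q) * ((orb α).card * U) := by
  have h1 : ∑ x ∈ orb α, ∑ y ∈ orb α, kr ((r x * rf (σ x)) ^ p) ((s y * rf (σ y)) ^ q) ≤
      ∑ x ∈ orb α, ∑ y ∈ orb α, (- Real.log ‖σ x ^ p - σ y ^ q‖ +
        p * (Real.posLog ‖σ x‖ + (1 - r x)) + q * (Real.posLog ‖σ y‖ + (1 - s y))) := by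
    refine Finset.sum_le_sum fun x hx => Finset.sum_le_sum fun y hy => ?_
    refine kr_pow_le (hr0 x hx) (hr1 x hx) (hs0 y hy) (hs1 y hy) p q ?_
    rw [← map_pow, ← map_pow]
    exact fun h3 => h x hx y hy (σ.injective h3)
  refine h1.trans ?_
  have e : ∀ f g : K → ℝ, ∑ x ∈ orb α, ∑ y ∈ orb α, (- Real.log ‖σ x ^ p - σ y ^ q‖ +
        p * f x + q * g y) = - ∑ x ∈ orb α, ∑ y ∈ orb α, Real.log ‖σ x ^ p - σ y ^ q‖ +
        (orb α).card * (p * ∑ x ∈ orb α, f x) + (orb α).card * (q * ∑ x ∈ orb α, g x) := by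
    intro f g
    simp only [Finset.sum_add_distrib, Finset.sum_neg_distrib, Finset.sum_const, nsmul_eq_mul,
      ← Finset.mul_sum]
  rw [e]
  have hd0 : 0 ≤ ((orb α).card : ℝ) := Nat.cast_nonneg _
  have h2 := mul_le_mul_of_nonneg_left (mul_le_mul_of_nonneg_left hU1 (Nat.cast_nonneg (α := ℝ) p)) hd0
  have h3 := mul_le_mul_of_nonneg_left (mul_le_mul_of_nonneg_left hU2 (Nat.cast_nonneg (α := ℝ) q)) hd0
  linarith

/-- **Main inequality**, symmetrised measures -/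
theorem main_ineqA (σ : K →+* ℂ) (α : K) (hα : IsIntegral ℤ α)
    (hne : ∀ p q : ℕ, 0 < p → 0 < q → p ≠ q → ∀ x ∈ orb α, ∀ y ∈ orb α, x ^ p ≠ y ^ q)
    (T : ℝ) (hT : 0 ≤ T) (Q : Finset ℕ) (hQ : ∀ p ∈ Q, p.Prime) (n : ℕ → ℕ) (hn : ∀ p ∈ Q, 0 < n p)
    (hinj : ∀ p ∈ Q, ∀ x ∈ orb α, ∀ y ∈ orb α, x ^ (p * n p) = y ^ (p * n p) → x ^ p = y ^ p)
    (hres : ∀ p ∈ Q, (n p : ℝ) * (orb α).card * Real.log p ≤
      ∑ x ∈ orb α, ∑ y ∈ orb α, Real.log ‖σ x ^ n p - σ y ^ (p * n p)‖)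
    (r : K → ℝ) (hr0 : ∀ x ∈ orb α, 0 ≤ r x) (hr1 : ∀ x ∈ orb α, r x ≤ 1)
    (hr : ∀ x ∈ orb α, ‖(r x : ℂ) * rf (σ x)‖ < 1)
    (s : ℕ → K → ℝ) (hs0 : ∀ p ∈ Q, ∀ x ∈ orb α, 0 ≤ s p x) (hs1 : ∀ p ∈ Q, ∀ x ∈ orb α, s p x ≤ 1)
    (hs : ∀ p ∈ Q, ∀ x ∈ orb α, ‖(s p x : ℂ) * rf (σ x)‖ < 1)
    (η : ℝ) (hη : ∑ x ∈ orb α, (1 - r x) ≤ η) (hηs : ∀ p ∈ Q, ∑ x ∈ orb α, (1 - s p x) ≤ η) :
    2 * T * (orb α).card * ∑ p ∈ Q, Real.log p ≤
      T ^ 2 * ∑ x ∈ orb α, ∑ y ∈ orb α, kr (r x * rf (σ x)) (r y * rf (σ y)) +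
      ∑ p ∈ Q, (1 / (n p : ℝ)) * ∑ x ∈ orb α, ∑ y ∈ blk α p x, ∑ y' ∈ orb α,
        kr (s p x * rf (σ y)) (s p y' * rf (σ y')) +
      4 * (T + Q.card) * (∑ p ∈ Q, (p : ℝ)) * (orb α).card *
        (∑ x ∈ orb α, Real.posLog ‖σ x‖ + η) := by
  classical
  have h0 : ∀ x ∈ orb α, x ≠ 0 := by
    intro x hx hx0
    have := hne 1 2 one_pos two_pos (by norm_num) x hx x hx
    rw [hx0] at this
    exact this (by simp)
  set U : ℝ := ∑ x ∈ orb α, Real.posLog ‖σ x‖ + η with hUdef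
  have hU1 : ∑ x ∈ orb α, (Real.posLog ‖σ x‖ + (1 - r x)) ≤ U := by
    rw [Finset.sum_add_distrib]
    linarith
  have hU2 : ∀ p ∈ Q, ∑ x ∈ orb α, (Real.posLog ‖σ x‖ + (1 - s p x)) ≤ U := by
    intro p hp
    rw [Finset.sum_add_distrib]
    have := hηs p hp
    linarith
  have hU0 : 0 ≤ U := le_trans (Finset.sum_nonneg fun x hx => by
    have h1 := hr1 x hx
    have h3 : 0 ≤ Real.posLog ‖σ x‖ := Real.posLog_nonneg
    linarith) hU1
  set d : ℝ := ((orb α).card : ℝ) with hddef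
  have hd0 : 0 ≤ d := by rw [hddef]; exact Nat.cast_nonneg _
  have hdU : 0 ≤ d * U := mul_nonneg hd0 hU0
  let Z : Option ℕ → K → ℂ := fun i x =>
    i.elim ((r x : ℂ) * rf (σ x)) (fun p => ((s p x : ℂ) * rf (σ x)) ^ p)
  let nf : Option ℕ → ℕ := fun i => i.elim 1 n
  let S : Option ℕ → Option ℕ → ℝ := fun i j => ∑ x ∈ orb α, ∑ y ∈ orb α,
    kr (Z i x ^ Nat.lcm (nf i) (nf j)) (Z j y ^ Nat.lcm (nf i) (nf j)) / (Nat.lcm (nf i) (nf j) : ℕ)
  set E : ℝ := ∑ x ∈ orb α, ∑ y ∈ orb α, kr (r x * rf (σ x)) (r y * rf (σ y)) with hEdef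
  let B : ℕ → ℝ := fun p => (1 / (n p : ℝ)) * ∑ x ∈ orb α, ∑ y ∈ blk α p x, ∑ y' ∈ orb α,
        kr (s p x * rf (σ y)) (s p y' * rf (σ y'))
  have hS11 : S none none = E := by simp [S, Z, nf, hEdef]
  -- the first order against a prime
  have hS1p : ∀ p ∈ Q, S none (some p) ≤ - (d * Real.log p) + (1 + p) * (d * U) := by
    intro p hp
    have hpp := hQ p hp
    have hnp := hn p hp
    have hnR : (0 : ℝ) < n p := by exact_mod_cast hnp
    have h1 := cross_leA σ α r (s p) hr0 hr1 (hs0 p hp) (hs1 p hp) (n p) (p * n p)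
      (hne (n p) (p * n p) hnp (Nat.mul_pos hpp.pos hnp)
        (lt_mul_of_one_lt_left hnp hpp.one_lt).ne) hU1 (hU2 p hp)
    have h2 := hres p hp
    have e : S none (some p) = (∑ x ∈ orb α, ∑ y ∈ orb α,
        kr ((r x * rf (σ x)) ^ n p) ((s p y * rf (σ y)) ^ (p * n p))) / n p := by
      simp only [S, Z, nf, Option.elim, Nat.lcm_one_left, ← pow_mul, ← Finset.sum_div]
    rw [e, div_le_iff₀ hnR]
    rw [← hddef] at h1
    push_cast at h1
    nlinarith [h1, h2]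
  have hSp1 : ∀ p ∈ Q, S (some p) none ≤ - (d * Real.log p) + (1 + p) * (d * U) := by
    intro p hp
    have hpp := hQ p hp
    have hnp := hn p hp
    have hnR : (0 : ℝ) < n p := by exact_mod_cast hnp
    have h1 := cross_leA σ α (s p) r (hs0 p hp) (hs1 p hp) hr0 hr1 (p * n p) (n p)
      (hne (p * n p) (n p) (Nat.mul_pos hpp.pos hnp) hnp
        (lt_mul_of_one_lt_left hnp hpp.one_lt).ne') (hU2 p hp) hU1
    have h2 := hres p hp
    have h3 : ∑ x ∈ orb α, ∑ y ∈ orb α, Real.log ‖σ x ^ (p * n p) - σ y ^ n p‖ =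
        ∑ x ∈ orb α, ∑ y ∈ orb α, Real.log ‖σ x ^ n p - σ y ^ (p * n p)‖ := by
      rw [Finset.sum_comm]
      refine Finset.sum_congr rfl fun x _ => Finset.sum_congr rfl fun y _ => ?_
      rw [norm_sub_rev]
    have e : S (some p) none = (∑ x ∈ orb α, ∑ y ∈ orb α,
        kr ((s p x * rf (σ x)) ^ (p * n p)) ((r y * rf (σ y)) ^ n p)) / n p := by
      simp only [S, Z, nf, Option.elim, Nat.lcm_one_right, ← pow_mul, ← Finset.sum_div]
    rw [e, div_le_iff₀ hnR]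
    rw [← hddef] at h1
    rw [h3] at h1
    push_cast at h1
    nlinarith [h1, h2]
  -- two primes
  have hSpq : ∀ p ∈ Q, ∀ q ∈ Q, S (some p) (some q) ≤
      (if p = q then B p else 0) + ((p : ℝ) + q) * (d * U) := by
    intro p hp q hq
    have hpp := hQ p hp
    have hqq := hQ q hq
    by_cases hpq : p = q
    · subst hpq
      rw [if_pos rfl]
      have hnp := hn p hp
      have hnR : (0 : ℝ) < n p := by exact_mod_cast hnp
      have h1 := self_leA σ α hα hpp.pos hnp h0 (hinj p hp) (s p) (hs0 p hp) (hs1 p hp) (hs p hp)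
        (hU2 p hp)
      have e : S (some p) (some p) = (∑ x ∈ orb α, ∑ y ∈ orb α,
          kr ((s p x * rf (σ x)) ^ (p * n p)) ((s p y * rf (σ y)) ^ (p * n p))) / n p := by
        simp only [S, Z, nf, Option.elim, Nat.lcm_self, ← pow_mul, ← Finset.sum_div]
      rw [e, div_le_iff₀ hnR]
      refine h1.trans (le_of_eq ?_)
      simp only [B]
      field_simp
      ring
    · rw [if_neg hpq, zero_add]
      set l := Nat.lcm (n p) (n q) with hl
      have hl0 : 0 < l := Nat.lcm_pos (hn p hp) (hn q hq)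
      have hlR : (0 : ℝ) < l := by exact_mod_cast hl0
      have hne2 := hne (p * l) (q * l) (Nat.mul_pos hpp.pos hl0) (Nat.mul_pos hqq.pos hl0)
        (fun h => hpq (Nat.eq_of_mul_eq_mul_right hl0 h))
      have h1 := cross_leA σ α (s p) (s q) (hs0 p hp) (hs1 p hp) (hs0 q hq) (hs1 q hq)
        (p * l) (q * l) hne2 (hU2 p hp) (hU2 q hq)
      have h2 := log_res_nonneg σ α hα (p * l) (q * l) hne2
      have e : S (some p) (some q) = (∑ x ∈ orb α, ∑ y ∈ orb α,
          kr ((s p x * rf (σ x)) ^ (p * l)) ((s q y * rf (σ y)) ^ (q * l))) / l := by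
        simp only [S, Z, nf, Option.elim, ← hl, ← pow_mul, ← Finset.sum_div]
      rw [e, div_le_iff₀ hlR]
      rw [← hddef] at h1
      push_cast at h1
      nlinarith [h1, h2]
  -- positivity
  let e : Option {p // p ∈ Q} → Option ℕ := fun i => i.elim none (fun p => some p)
  let c : Option {p // p ∈ Q} → ℝ := fun i => i.elim T (fun _ => 1)
  have hnf : ∀ i, 0 < nf (e i) := by
    rintro (_ | p)
    · exact one_pos
    · exact hn p p.2
  have hpos := kr_posdef_lcm (ι := {x // x ∈ orb α} × Option {p // p ∈ Q}) (fun z => c z.2)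
    (fun z => Z (e z.2) z.1) (fun z => by
      obtain ⟨x, i⟩ := z
      rcases i with _ | p
      · exact hr x x.2
      · change ‖((s p x : ℂ) * rf (σ x)) ^ (p : ℕ)‖ < 1
        rw [norm_pow]
        exact pow_lt_one₀ (norm_nonneg _) (hs p p.2 x x.2) (hQ p p.2).pos.ne')
    (fun z => nf (e z.2)) (fun z => hnf z.2)
  rw [sum_prod_swap] at hpos
  have hconv : ∀ i j : Option {p // p ∈ Q},
      ∑ x : {x // x ∈ orb α}, ∑ y : {x // x ∈ orb α},
        c i * c j * (kr (Z (e i) x ^ Nat.lcm (nf (e i)) (nf (e j)))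
          (Z (e j) y ^ Nat.lcm (nf (e i)) (nf (e j))) / (Nat.lcm (nf (e i)) (nf (e j)) : ℕ)) =
        c i * c j * S (e i) (e j) := by
    intro i j
    rw [Finset.sum_coe_sort (orb α) (fun x => ∑ y : {x // x ∈ orb α},
      c i * c j * (kr (Z (e i) x ^ Nat.lcm (nf (e i)) (nf (e j)))
          (Z (e j) y ^ Nat.lcm (nf (e i)) (nf (e j))) / (Nat.lcm (nf (e i)) (nf (e j)) : ℕ))),
      Finset.mul_sum]
    refine Finset.sum_congr rfl fun x _ => ?_
    rw [Finset.sum_coe_sort (orb α) (fun y => c i * c j *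
      (kr (Z (e i) x ^ Nat.lcm (nf (e i)) (nf (e j)))
          (Z (e j) y ^ Nat.lcm (nf (e i)) (nf (e j))) / (Nat.lcm (nf (e i)) (nf (e j)) : ℕ))),
      Finset.mul_sum]
  have hpos2 : 0 ≤ ∑ i : Option {p // p ∈ Q}, ∑ j : Option {p // p ∈ Q},
      c i * c j * S (e i) (e j) := by
    refine hpos.trans (le_of_eq ?_)
    exact Finset.sum_congr rfl fun i _ => Finset.sum_congr rfl fun j _ => hconv i j
  have hexp : ∑ i : Option {p // p ∈ Q}, ∑ j : Option {p // p ∈ Q}, c i * c j * S (e i) (e j) =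
      T * T * S none none + ∑ p ∈ Q, T * S none (some p) + ∑ p ∈ Q, T * S (some p) none +
        ∑ p ∈ Q, ∑ q ∈ Q, S (some p) (some q) := by
    rw [Fintype.sum_option]
    simp only [Fintype.sum_option]
    rw [Finset.sum_add_distrib]
    have e1 : ∀ f : ℕ → ℝ, ∑ p : {p // p ∈ Q}, f p = ∑ p ∈ Q, f p := fun f =>
      Finset.sum_coe_sort Q f
    have t1 : c none = T := rfl
    have t2 : ∀ p : {p // p ∈ Q}, c (some p) = 1 := fun _ => rfl
    have t3 : e none = none := rfl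
    have t4 : ∀ p : {p // p ∈ Q}, e (some p) = some (p : ℕ) := fun _ => rfl
    simp only [t1, t2, t3, t4, mul_one, one_mul]
    rw [e1 (fun p => T * S none (some p)), e1 (fun p => T * S (some p) none)]
    have e2 : ∑ p : {p // p ∈ Q}, ∑ q : {p // p ∈ Q}, S (some (p : ℕ)) (some (q : ℕ)) =
        ∑ p ∈ Q, ∑ q ∈ Q, S (some p) (some q) := by
      rw [← e1 (fun p => ∑ q ∈ Q, S (some p) (some q))]
      exact Finset.sum_congr rfl fun p _ => e1 (fun q => S (some (p : ℕ)) (some q))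
    rw [e2]
    ring
  rw [hexp, hS11] at hpos2
  have b1 : ∑ p ∈ Q, T * S none (some p) ≤
      ∑ p ∈ Q, T * (- (d * Real.log p) + (1 + p) * (d * U)) :=
    Finset.sum_le_sum fun p hp => mul_le_mul_of_nonneg_left (hS1p p hp) hT
  have b2 : ∑ p ∈ Q, T * S (some p) none ≤
      ∑ p ∈ Q, T * (- (d * Real.log p) + (1 + p) * (d * U)) :=
    Finset.sum_le_sum fun p hp => mul_le_mul_of_nonneg_left (hSp1 p hp) hT
  have b3 : ∑ p ∈ Q, ∑ q ∈ Q, S (some p) (some q) ≤
      ∑ p ∈ Q, ∑ q ∈ Q, ((if p = q then B p else 0) + ((p : ℝ) + q) * (d * U)) :=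
    Finset.sum_le_sum fun p hp => Finset.sum_le_sum fun q hq => hSpq p hp q hq
  have hBB : ∑ p ∈ Q, (1 / (n p : ℝ)) * ∑ x ∈ orb α, ∑ y ∈ blk α p x, ∑ y' ∈ orb α,
        kr (s p x * rf (σ y)) (s p y' * rf (σ y')) = ∑ p ∈ Q, B p := rfl
  rw [hBB]
  set P : ℝ := ∑ p ∈ Q, (p : ℝ) with hPdef
  set t : ℝ := (Q.card : ℝ) with htdef
  set Lg : ℝ := ∑ p ∈ Q, Real.log p with hLdef
  have ht0 : 0 ≤ t := by rw [htdef]; exact Nat.cast_nonneg _
  have htP : t ≤ P := by
    rw [htdef, hPdef, Finset.card_eq_sum_ones]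
    push_cast
    exact Finset.sum_le_sum fun p hp => by exact_mod_cast (hQ p hp).one_lt.le
  have c1 : ∑ p ∈ Q, T * (- (d * Real.log p) + (1 + p) * (d * U)) =
      T * (- (d * Lg) + (t + P) * (d * U)) := by
    rw [← Finset.mul_sum, Finset.sum_add_distrib, Finset.sum_neg_distrib, ← Finset.mul_sum,
      ← Finset.sum_mul, Finset.sum_add_distrib, Finset.sum_const, nsmul_eq_mul, mul_one]
  have c3 : ∑ p ∈ Q, ∑ q ∈ Q, ((if p = q then B p else 0) + ((p : ℝ) + q) * (d * U)) =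
      ∑ p ∈ Q, B p + 2 * t * P * (d * U) := by
    have e1 : ∀ p ∈ Q, ∑ q ∈ Q, ((if p = q then B p else 0) + ((p : ℝ) + q) * (d * U)) =
        B p + (t * p + P) * (d * U) := by
      intro p hp
      rw [Finset.sum_add_distrib, Finset.sum_ite_eq, if_pos hp, ← Finset.sum_mul,
        Finset.sum_add_distrib, Finset.sum_const, nsmul_eq_mul]
    rw [Finset.sum_congr rfl e1, Finset.sum_add_distrib,
      ← Finset.sum_mul, Finset.sum_add_distrib, ← Finset.mul_sum, Finset.sum_const, nsmul_eq_mul]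
    ring
  rw [c1] at b1 b2
  rw [c3] at b3
  have f1 : 0 ≤ T * (P - t) * (d * U) :=
    mul_nonneg (mul_nonneg hT (sub_nonneg.2 htP)) hdU
  have f2 : 0 ≤ t * P * (d * U) := mul_nonneg (mul_nonneg ht0 (ht0.trans htP)) hdU
  nlinarith [hpos2, b1, b2, b3, f1, f2]

end H73.LB
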