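import Pool.Agent.H73.LB.CoreA
import Pool.Agent.H90.LB.RedL
import Pool.Agent.H7.LB.Core
import Pool.Agent.H95.LB.BlocksOrb

/-!
# LB: the theorem for all irreducible polynomials, mean of `log⁺ |f|` on the unit circle
-/

set_option autoImplicit false

namespace H73.LB

open H25.Arith H25.Arith.Disc H91.LK H82.LB Polynomial

/-- the mean of `log⁺ |f|` on the unit circle -/
noncomputable def mlp (f : ℤ[X]) : ℝ :=
  Real.circleAverage (fun z => Real.posLog ‖(f.map (Int.castRingHom ℂ)).eval z‖) 0 1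

theorem mlp_nonneg (f : ℤ[X]) : 0 ≤ mlp f := by
  unfold mlp
  apply Real.circleAverage_nonneg_of_nonneg
  intro z _
  exact Real.posLog_nonneg

theorem circ_int (f : ℂ[X]) :
    CircleIntegrable (fun z => Real.posLog ‖f.eval z‖) 0 1 := by
  have hc : Continuous fun z : ℂ => Real.posLog ‖f.eval z‖ :=
    Real.continuous_posLog.comp f.continuous.norm
  exact hc.continuousOn.circleIntegrable zero_le_one

theorem mean_orb_le {K : Type} [Field K] [NumberField K] [IsGalois ℚ K] (f : ℤ[X]) (σ : K →+* ℂ)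
    (α : K) (hα : IsIntegral ℤ α) (hassoc : Associated (minpoly ℤ α) f) :
    Real.circleAverage
      (fun w => Real.posLog (∏ x ∈ orb α, ‖1 - w * starRingEnd ℂ (rf (σ x))‖)) 0 1 ≤ mlp f := by
  unfold mlp
  have e0 : (fun w : ℂ => Real.posLog (∏ x ∈ orb α, ‖1 - w * starRingEnd ℂ (rf (σ x))‖)) =
      fun w : ℂ => Real.posLog ‖∏ x ∈ orb α, (1 - w * starRingEnd ℂ (rf (σ x)))‖ := by
    ext w
    rw [norm_prod]
  rw [e0]
  have hc : Continuous fun w : ℂ =>
      Real.posLog ‖∏ x ∈ orb α, (1 - w * starRingEnd ℂ (rf (σ x)))‖ := by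
    refine Real.continuous_posLog.comp (Continuous.norm ?_)
    fun_prop
  refine Real.circleAverage_mono (hc.continuousOn.circleIntegrable zero_le_one) (circ_int _) ?_
  intro w hw
  have hw1 : ‖w‖ = 1 := by
    rw [mem_sphere_iff_norm, sub_zero, abs_one] at hw
    exact hw
  have h1 : ‖(f.map (Int.castRingHom ℂ)).eval w‖ = ∏ y ∈ orb α, ‖w - σ y‖ := by
    rw [← H23.LB.tf_eval σ α hα w]
    obtain ⟨u, hu⟩ := hassoc
    obtain ⟨e, he1, he⟩ := Polynomial.isUnit_iff.1 u.isUnit
    rw [← hu, ← he, Polynomial.map_mul, map_C, eval_mul, eval_C, norm_mul]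
    rcases Int.isUnit_iff.1 he1 with h | h <;> rw [h] <;> simp
  rw [h1, norm_prod]
  refine Real.posLog_le_posLog (Finset.prod_nonneg fun x _ => norm_nonneg _) ?_
  exact Finset.prod_le_prod (fun x _ => norm_nonneg _) fun x _ => H23.LB.tf_rf2 w (σ x) hw1

/-- **Theorem.** Every irreducible `f ∈ ℤ[X]` with positive logarithmic Mahler measure. -/
theorem mean_bound : ∃ c : ℝ, 0 < c ∧ ∀ f : ℤ[X], Irreducible f → 0 < lm f →
    c / (1 + mlp f) ^ 3 ≤ lm f := by
  classical
  obtain ⟨C, hC, hen⟩ := H82.LB.block_energy_orb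
  obtain ⟨c, hc, hcore⟩ := assembly_coreA C hC
  refine ⟨min c (Real.log 2), lt_min hc (Real.log_pos (by norm_num)), ?_⟩
  intro f hf h0
  have hL := mlp_nonneg f
  have hcb : (1 : ℝ) ≤ (1 + mlp f) ^ 3 := one_le_pow₀ (by linarith)
  rcases le_or_gt (Real.log 2) (lm f) with h2 | h2
  · calc min c (Real.log 2) / (1 + mlp f) ^ 3 ≤ min c (Real.log 2) :=
          div_le_self (le_min hc.le (Real.log_nonneg (by norm_num))) hcb
      _ ≤ Real.log 2 := min_le_right _ _
      _ ≤ lm f := h2
  · have hlog2 : Real.log 2 ≤ 1 := by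
      have := Real.log_two_lt_d9
      linarith
    have hfdeg : 0 < f.natDegree := by
      rw [Nat.pos_iff_ne_zero]
      intro hz
      have hlc := nd_lc hf.ne_zero h2
      apply hf.not_isUnit
      rw [eq_C_of_natDegree_eq_zero hz] at hlc ⊢
      rw [leadingCoeff_C] at hlc
      rw [isUnit_C]
      exact Int.isUnit_iff_abs_eq.2 hlc
    obtain ⟨g, hg, hgd, hgf, hglm, hgml, -, hgexp⟩ := H90.LB.red_existsL f hf hfdeg
    have hml : mlp g = mlp f := hgml
    rw [← hml] at hL hcb ⊢
    rw [← hglm] at h0 h2 ⊢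
    obtain ⟨B, hB⟩ : ∃ B : ℝ, ∀ z : ℂ, ‖z‖ = 1 → ‖(g.map (Int.castRingHom ℂ)).eval z‖ ≤ B := by
      have hcomp : IsCompact (Metric.sphere (0 : ℂ) 1) := isCompact_sphere _ _
      obtain ⟨B, hB⟩ := hcomp.exists_bound_of_continuousOn
        (g.map (Int.castRingHom ℂ)).continuous.continuousOn
      exact ⟨B, fun z hz => hB z (by simpa using hz)⟩
    obtain ⟨K, iF, iN, iG, σ, α, hα, hassoc, hcard, hdeg, hm, hrf, -, hne, -⟩ :=
      H23.LB.to_field_full g hg h0 h2 B hB
    have hα0 : α ≠ 0 := by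
      rintro rfl
      have h3 : ∑ x ∈ orb (0 : K), Real.posLog ‖σ x‖ = 0 := by
        refine Finset.sum_eq_zero fun x hx => ?_
        obtain ⟨s, rfl⟩ := Disc.mem_orb.1 hx
        simp
      rw [h3] at hm
      linarith
    have hbl : ∀ p : ℕ, p.Prime → (blk α p α).card < p := by
      intro p hp
      by_contra hge
      obtain ⟨h, hh⟩ := H90.LB.red_block hα hα0 hp (by
        have h5 := not_lt.1 hge
        have e : blk α p α = (orb α).filter fun x => x ^ p = α ^ p := by
          ext y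
          rw [mem_blk, Finset.mem_filter]
        rw [e] at h5
        exact h5)
      obtain ⟨u, hu⟩ := hassoc
      obtain ⟨e, -, he⟩ := Polynomial.isUnit_iff.1 u.isUnit
      apply hgexp p hp (h * Polynomial.C e)
      rw [← hu, hh, map_mul, expand_C, he]
    have hmean := mean_orb_le g σ α hα hassoc
    have key := hcore K σ α (mlp g) hα hcard hL (by rw [hm]; exact h0)
      (by rw [hm]; linarith) hbl hne (by
        intro ε hε hε2 p n hn hbn
        rw [hm]
        exact hen σ α (mlp g) (lm g) hL hcard hrf hmean p n hn hbn ε hε hε2)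
    rw [hm] at key
    refine le_trans ?_ key
    exact div_le_div_of_nonneg_right (min_le_left _ _) (by positivity)

/-- the mean is at most the logarithm of the maximum -/
theorem mlp_le (f : ℤ[X]) {B : ℝ} (hB1 : 1 ≤ B)
    (hB : ∀ z : ℂ, ‖z‖ = 1 → ‖(f.map (Int.castRingHom ℂ)).eval z‖ ≤ B) : mlp f ≤ Real.log B := by
  unfold mlp
  apply Real.circleAverage_mono_on_of_le_circle (circ_int _)
  intro w hw
  have hw1 : ‖w‖ = 1 := by
    rw [mem_sphere_iff_norm, sub_zero, abs_one] at hw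
    exact hw
  have h2 := Real.posLog_le_posLog (norm_nonneg _) (hB w hw1)
  refine h2.trans (le_of_eq ?_)
  exact Real.posLog_eq_log (by rw [abs_of_pos (by linarith)]; exact hB1)

/-- **Theorem**, in terms of the maximum on the unit circle. -/
theorem length_bound_full : ∃ c : ℝ, 0 < c ∧ ∀ (f : ℤ[X]) (B : ℝ), Irreducible f → 0 < lm f →
    (∀ z : ℂ, ‖z‖ = 1 → ‖(f.map (Int.castRingHom ℂ)).eval z‖ ≤ B) →
    c / (1 + Real.log B) ^ 3 ≤ lm f := by
  obtain ⟨c, hc, h⟩ := mean_bound
  refine ⟨c, hc, fun f B hf h0 hB => le_trans ?_ (h f hf h0)⟩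
  have hB1 := H82.LB.log_sup f B h0 hB
  have h1 := mlp_le f hB1 hB
  have h2 := mlp_nonneg f
  apply div_le_div_of_nonneg_left hc.le (by positivity)
  exact pow_le_pow_left₀ (by linarith) (by linarith) 3

end H73.LB
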